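import Mathlib

/-!
# The discrete Wirtinger inequality on the cycle `ZMod N`
-/

set_option autoImplicit false

namespace Pool.Agent.Y419.Cyc

open Finset ZMod

variable {N : ℕ} [NeZero N]

/-- The finite Fourier transform. -/
noncomputable def ft (x : ZMod N → ℝ) (k : ZMod N) : ℂ := ∑ j, stdAddChar (j * k) * (x j : ℂ)

lemma conj_char (a : ZMod N) : (starRingEnd ℂ) (stdAddChar a) = stdAddChar (-a) := by
  rw [stdAddChar_apply, stdAddChar_apply]
  rw [show (toCircle (-a) : Circle) = (toCircle a)⁻¹ from AddChar.map_neg_eq_inv _ _]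
  rw [Circle.coe_inv_eq_conj]

/-- Parseval. -/
theorem parseval (x : ZMod N → ℝ) : ∑ k, Complex.normSq (ft x k) = N * ∑ j, x j ^ 2 := by
  classical
  have h1 : ((∑ k, Complex.normSq (ft x k) : ℝ) : ℂ) = ((N * ∑ j, x j ^ 2 : ℝ) : ℂ) := by
    rw [Complex.ofReal_sum]
    have h2 : ∀ k : ZMod N, ((Complex.normSq (ft x k) : ℝ) : ℂ) =
        ∑ j, ∑ l, (x j : ℂ) * x l * stdAddChar (k * (j - l)) := by
      intro k
      rw [← Complex.mul_conj, ft, map_sum, Finset.sum_mul_sum]
      refine Finset.sum_congr rfl fun j _ => Finset.sum_congr rfl fun l _ => ?_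
      rw [(starRingEnd ℂ).map_mul, conj_char, Complex.conj_ofReal, mul_sub, sub_eq_add_neg,
        AddChar.map_add_eq_mul, mul_comm k j, mul_comm k l]
      ring
    rw [Finset.sum_congr rfl (fun k _ => h2 k), Finset.sum_comm]
    have h3 : ∀ j : ZMod N, ∑ k : ZMod N, ∑ l, (x j : ℂ) * x l * stdAddChar (k * (j - l)) =
        (N : ℂ) * (x j : ℂ) ^ 2 := by
      intro j
      rw [Finset.sum_comm]
      have h4 : ∀ l : ZMod N, ∑ k : ZMod N, (x j : ℂ) * x l * stdAddChar (k * (j - l)) =
          if l = j then (N : ℂ) * (x j : ℂ) ^ 2 else 0 := by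
        intro l
        rw [← Finset.mul_sum, AddChar.sum_mulShift _ (isPrimitive_stdAddChar N)]
        by_cases h : l = j
        · subst h
          simp [ZMod.card]
          ring
        · have h5 : j - l ≠ 0 := sub_ne_zero.2 (Ne.symm h)
          simp [h, h5]
      rw [Finset.sum_congr rfl (fun l _ => h4 l), Finset.sum_ite_eq' _ _ _, if_pos (mem_univ _)]
    rw [Finset.sum_congr rfl (fun j _ => h3 j)]
    push_cast
    rw [Finset.mul_sum]
  exact_mod_cast h1

lemma ft_diff (x : ZMod N → ℝ) (k : ZMod N) :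
    ft (fun j => x (j + 1) - x j) k = (stdAddChar (-k) - 1) * ft x k := by
  unfold ft
  have h1 : ∑ j : ZMod N, stdAddChar (j * k) * ((x (j + 1) : ℝ) : ℂ) =
      stdAddChar (-k) * ∑ j, stdAddChar (j * k) * (x j : ℂ) := by
    rw [Finset.mul_sum]
    refine Fintype.sum_equiv (Equiv.addRight (1 : ZMod N)) _ _ fun j => ?_
    rw [Equiv.coe_addRight, ← mul_assoc, ← AddChar.map_add_eq_mul]
    congr 2
    ring
  rw [sub_mul, one_mul, ← h1, ← Finset.sum_sub_distrib]
  refine Finset.sum_congr rfl fun j _ => ?_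
  push_cast
  ring

lemma normSq_char_sub_one (k : ZMod N) (hk : k ≠ 0) :
    2 - 2 * Real.cos (2 * Real.pi / N) ≤ Complex.normSq (stdAddChar (-k) - 1) := by
  have hN : (0 : ℝ) < N := by exact_mod_cast NeZero.pos N
  obtain ⟨m, hm, hm0, hmN⟩ : ∃ m : ℕ, k = ((m : ℕ) : ZMod N) ∧ 0 < m ∧ m < N := by
    refine ⟨k.val, (ZMod.natCast_zmod_val k).symm, ?_, ZMod.val_lt k⟩
    rcases Nat.eq_zero_or_pos k.val with h | h
    · exact absurd ((ZMod.val_eq_zero k).1 h) hk
    · exact h
  have h1 : (stdAddChar (-k) : ℂ) = Complex.exp (((-(2 * Real.pi * m / N) : ℝ) : ℂ) * Complex.I) := by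
    have h2 : (-k : ZMod N) = ((-(m : ℤ) : ℤ) : ZMod N) := by rw [hm]; push_cast; ring
    rw [h2, stdAddChar_coe]
    congr 1
    push_cast
    ring
  have h3 : Complex.normSq ((stdAddChar (-k) : ℂ) - 1) = 2 - 2 * Real.cos (2 * Real.pi * m / N) := by
    rw [h1, Complex.exp_mul_I, Complex.normSq_apply]
    simp only [Complex.sub_re, Complex.add_re, Complex.mul_re, Complex.I_re, Complex.I_im,
      Complex.one_re, Complex.sub_im, Complex.add_im, Complex.mul_im, Complex.one_im]
    rw [← Complex.ofReal_cos, ← Complex.ofReal_sin]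
    simp only [Complex.ofReal_re, Complex.ofReal_im, Real.cos_neg, Real.sin_neg]
    have := Real.sin_sq_add_cos_sq (2 * Real.pi * m / N)
    nlinarith
  rw [h3]
  have hpi := Real.pi_pos
  have hθ : Real.cos (2 * Real.pi * m / N) ≤ Real.cos (2 * Real.pi / N) := by
    have hm1 : (1 : ℝ) ≤ m := by exact_mod_cast hm0
    have hmN1 : (m : ℝ) ≤ N - 1 := by
      have : m + 1 ≤ N := hmN
      have h : ((m + 1 : ℕ) : ℝ) ≤ N := by exact_mod_cast this
      push_cast at h
      linarith
    rcases le_or_gt (2 * m) N with h | h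
    · have h' : (2 * m : ℝ) ≤ N := by exact_mod_cast h
      apply Real.cos_le_cos_of_nonneg_of_le_pi
      · positivity
      · rw [div_le_iff₀ hN]; nlinarith
      · rw [div_le_div_iff_of_pos_right hN]; nlinarith
    · have h' : (N : ℝ) < 2 * m := by exact_mod_cast h
      have h4 : Real.cos (2 * Real.pi * m / N) = Real.cos (2 * Real.pi * (N - m) / N) := by
        rw [show 2 * Real.pi * (N - m) / N = 2 * Real.pi - 2 * Real.pi * m / N by
          field_simp]
        rw [Real.cos_two_pi_sub]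
      rw [h4]
      apply Real.cos_le_cos_of_nonneg_of_le_pi
      · positivity
      · rw [div_le_iff₀ hN]; nlinarith
      · rw [div_le_div_iff_of_pos_right hN]; nlinarith
  linarith

/-- The discrete Wirtinger inequality (Fan, Taussky, Todd). -/
theorem wirtinger (x : ZMod N → ℝ) (hx : ∑ j, x j = 0) :
    (2 - 2 * Real.cos (2 * Real.pi / N)) * ∑ j, x j ^ 2 ≤ ∑ j, (x (j + 1) - x j) ^ 2 := by
  have hN : (0 : ℝ) < N := by exact_mod_cast NeZero.pos N
  have h1 := parseval x
  have h2 := parseval (fun j => x (j + 1) - x j)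
  have h0 : ft x 0 = 0 := by
    unfold ft
    simp only [mul_zero, AddChar.map_zero_eq_one, one_mul]
    exact_mod_cast hx
  have h3 : ∀ k : ZMod N, (2 - 2 * Real.cos (2 * Real.pi / N)) * Complex.normSq (ft x k) ≤
      Complex.normSq (ft (fun j => x (j + 1) - x j) k) := by
    intro k
    rw [ft_diff, map_mul]
    by_cases hk : k = 0
    · rw [hk, h0]; simp
    · exact mul_le_mul_of_nonneg_right (normSq_char_sub_one k hk) (Complex.normSq_nonneg _)
  have h4 : (2 - 2 * Real.cos (2 * Real.pi / N)) * (N * ∑ j, x j ^ 2) ≤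
      N * ∑ j, (x (j + 1) - x j) ^ 2 := by
    rw [← h1, ← h2, Finset.mul_sum]
    exact Finset.sum_le_sum fun k _ => h3 k
  have h5 : N * ((2 - 2 * Real.cos (2 * Real.pi / N)) * ∑ j, x j ^ 2) ≤
      N * ∑ j, (x (j + 1) - x j) ^ 2 := by linarith
  exact le_of_mul_le_mul_left h5 hN

end Pool.Agent.Y419.Cyc
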