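import Mathlib

/-!
# A closed walk through every edge of a connected graph, once in each direction
-/

set_option autoImplicit false

namespace Pool.Agent.Y419.Tour

open SimpleGraph

variable {V : Type*} {G : SimpleGraph V}

/-- In a connected finite graph there is a closed walk which uses every dart exactly once. -/
theorem exists_tour [Fintype V] [DecidableEq V] [DecidableRel G.Adj] (hG : G.Connected) :
    ∃ (v : V) (p : G.Walk v v), p.darts.Nodup ∧ ∀ d : G.Dart, d ∈ p.darts := by
  classical
  obtain ⟨v0⟩ := hG.nonempty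
  refine ⟨v0, ?_⟩
  -- good walks
  let P : ℕ → Prop := fun k => ∃ p : G.Walk v0 v0, p.darts.Nodup ∧
    (∀ d ∈ p.darts, d.symm ∈ p.darts) ∧ p.length = k
  have hb : ∀ k, P k → k ≤ Fintype.card G.Dart := by
    rintro k ⟨p, h1, -, rfl⟩
    rw [← Walk.length_darts]
    have := List.Nodup.length_le_card h1
    exact this
  have h0 : P 0 := ⟨Walk.nil, by simp, by simp, rfl⟩
  have hmax := Nat.findGreatest_spec (P := P) (Nat.zero_le (Fintype.card G.Dart)) h0
  obtain ⟨p, h1, h2, h3⟩ := hmax
  refine ⟨p, h1, ?_⟩
  by_contra hcon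
  push Not at hcon
  obtain ⟨d, hd⟩ := hcon
  -- a new dart which starts on the walk
  have key : ∃ d' : G.Dart, d' ∉ p.darts ∧ d'.fst ∈ p.support := by
    by_cases hf : d.fst ∈ p.support
    · exact ⟨d, hd, hf⟩
    · obtain ⟨q⟩ := hG.preconnected v0 d.fst
      obtain ⟨e, he, he1, he2⟩ := q.exists_boundary_dart {x | x ∈ p.support} p.start_mem_support hf
      exact ⟨e, fun h => he2 (p.dart_snd_mem_support_of_mem_darts h), he1⟩
  obtain ⟨e, he, hx⟩ := key
  have hes : e.symm ∉ p.darts := fun h => he (by simpa using h2 _ h)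
  let q : G.Walk v0 v0 := (p.takeUntil e.fst hx).append
    (Walk.cons e.adj (Walk.cons e.adj.symm (p.dropUntil e.fst hx)))
  have hpd : (p.takeUntil e.fst hx).darts ++ (p.dropUntil e.fst hx).darts = p.darts := by
    rw [← Walk.darts_append, Walk.take_spec]
  have hqd : q.darts = (p.takeUntil e.fst hx).darts ++ (e :: e.symm :: (p.dropUntil e.fst hx).darts) := by
    simp only [q, Walk.darts_append, Walk.darts_cons]
    rfl
  have hperm : q.darts.Perm (e :: e.symm :: p.darts) := by
    rw [hqd, ← hpd]
    refine (List.perm_middle).trans ?_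
    refine List.Perm.cons _ ?_
    exact List.perm_middle
  have hq1 : q.darts.Nodup := by
    rw [hperm.nodup_iff, List.nodup_cons, List.nodup_cons]
    refine ⟨?_, hes, h1⟩
    rw [List.mem_cons]
    rintro (h | h)
    · exact absurd h e.symm_ne.symm
    · exact he h
  have hq2 : ∀ d ∈ q.darts, d.symm ∈ q.darts := by
    intro d hd
    rw [hperm.mem_iff, List.mem_cons, List.mem_cons] at hd ⊢
    rcases hd with rfl | rfl | h
    · exact Or.inr (Or.inl rfl)
    · left; simp
    · exact Or.inr (Or.inr (h2 _ h))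
  have hq3 : q.length = p.length + 2 := by
    rw [← Walk.length_darts, ← Walk.length_darts, hperm.length_eq]
    simp
  have hP : P (p.length + 2) := ⟨q, hq1, hq2, hq3⟩
  have := Nat.le_findGreatest (hb _ hP) hP
  omega

/-- Sums along a walk. -/
theorem sum_range_getVert {u v : V} (p : G.Walk u v) (φ : V → V → ℝ) :
    ∑ i ∈ Finset.range p.length, φ (p.getVert i) (p.getVert (i + 1)) =
      (p.darts.map (fun d => φ d.fst d.snd)).sum := by
  induction p with
  | nil => simp
  | cons h q ih =>
    rw [Walk.length_cons, Finset.sum_range_succ', Walk.darts_cons, List.map_cons, List.sum_cons, ← ih,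
      add_comm]
    simp only [Walk.getVert_cons_succ, Walk.getVert_zero, zero_add]

theorem sum_darts [Fintype V] [DecidableEq V] [DecidableRel G.Adj] (φ : V → V → ℝ) :
    ∑ d : G.Dart, φ d.fst d.snd = ∑ u, ∑ v, if G.Adj u v then φ u v else 0 := by
  classical
  have h1 : ∀ u, ∑ v, (if G.Adj u v then φ u v else 0) =
      ∑ d ∈ Finset.univ.filter (fun d : G.Dart => d.fst = u), φ d.fst d.snd := by
    intro u
    rw [← Finset.sum_filter]
    symm
    refine Finset.sum_bij (fun d _ => d.snd) ?_ ?_ ?_ ?_
    · intro d hd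
      rw [Finset.mem_filter] at hd ⊢
      exact ⟨Finset.mem_univ _, hd.2 ▸ d.adj⟩
    · intro d hd d' hd' h
      rw [Finset.mem_filter] at hd hd'
      exact Dart.ext _ _ (Prod.ext (hd.2.trans hd'.2.symm) h)
    · intro v hv
      rw [Finset.mem_filter] at hv
      exact ⟨⟨(u, v), hv.2⟩, by simp, rfl⟩
    · intro d hd
      rw [Finset.mem_filter] at hd
      rw [hd.2]
  rw [Finset.sum_congr rfl (fun u _ => h1 u)]
  rw [Finset.sum_fiberwise]

end Pool.Agent.Y419.Tour
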