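import Mathlib
import Pool.Agent.Y419.Tour
import Pool.Agent.Y419.Cyc

/-!
# The spectral gap of simple random walk on a connected graph with `m` edges is at least
`1 - cos (π / m)`, its value for the path with `m` edges
-/

set_option autoImplicit false

namespace Pool.Agent.Y419.Relax

open SimpleGraph Finset

lemma sum_zmod {N : ℕ} [NeZero N] (F : ℕ → ℝ) : ∑ j : ZMod N, F j.val = ∑ i ∈ range N, F i := by
  obtain ⟨k, rfl⟩ : ∃ k, N = k + 1 := ⟨N - 1, by have := NeZero.pos N; omega⟩
  exact Fin.sum_univ_eq_sum_range F (k + 1)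

lemma sum_tour {V : Type*} {G : SimpleGraph V} [Fintype V] [DecidableEq V] [DecidableRel G.Adj]
    {v : V} (p : G.Walk v v) (h1 : p.darts.Nodup) (h2 : ∀ d : G.Dart, d ∈ p.darts) (φ : V → V → ℝ) :
    ∑ i ∈ range p.length, φ (p.getVert i) (p.getVert (i + 1)) =
      ∑ u, ∑ v, if G.Adj u v then φ u v else 0 := by
  classical
  rw [Tour.sum_range_getVert, ← Tour.sum_darts, ← List.sum_toFinset _ h1]
  refine Finset.sum_congr ?_ fun _ _ => rfl
  ext d
  simp [h2 d]

/-- The Poincaré inequality on a connected graph with `m` edges, with the constant of the path. -/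
theorem poincare {V : Type*} {G : SimpleGraph V} [Fintype V] [DecidableRel G.Adj]
    (hG : G.Connected) (hm : 1 ≤ G.edgeFinset.card) (f : V → ℝ) :
    ∃ c : ℝ, (1 - Real.cos (Real.pi / G.edgeFinset.card)) * ∑ v, (G.degree v : ℝ) * (f v - c) ^ 2 ≤
      (1 / 2 : ℝ) * ∑ u, ∑ v, (if G.Adj u v then (f u - f v) ^ 2 else 0) := by
  classical
  obtain ⟨v, p, h1, h2⟩ := Tour.exists_tour hG
  set m := G.edgeFinset.card with hmdef
  have hlen : p.length = 2 * m := by
    rw [hmdef, ← G.dart_card_eq_twice_card_edges, ← Walk.length_darts,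
      ← List.toFinset_card_of_nodup h1, ← Finset.card_univ]
    congr 1
    ext d
    simp [h2 d]
  have hdeg : ∀ F : V → ℝ, ∑ i ∈ range p.length, F (p.getVert i) = ∑ u, (G.degree u : ℝ) * F u := by
    intro F
    rw [sum_tour p h1 h2 (fun u _ => F u)]
    refine Finset.sum_congr rfl fun u _ => ?_
    rw [← Finset.sum_filter, Finset.sum_const, nsmul_eq_mul]
    congr 2
    rw [← G.card_neighborFinset_eq_degree]
    congr 1
    ext w
    simp
  -- the mean value
  have hsum : (∑ u, (G.degree u : ℝ)) = 2 * m := by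
    have := hdeg (fun _ => 1)
    simp only [mul_one] at this
    rw [← this, Finset.sum_const, card_range, hlen]
    push_cast
    ring
  have hm0 : (0 : ℝ) < m := by exact_mod_cast hm
  set c : ℝ := (∑ u, (G.degree u : ℝ) * f u) / (2 * m) with hc
  refine ⟨c, ?_⟩
  have : NeZero (2 * m) := ⟨by omega⟩
  let x : ZMod (2 * m) → ℝ := fun j => f (p.getVert j.val) - c
  have hx0 : ∑ j, x j = 0 := by
    rw [sum_zmod (N := 2 * m) (fun i => f (p.getVert i) - c), ← hlen, hdeg (fun u => f u - c)]
    simp only [mul_sub]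
    rw [Finset.sum_sub_distrib, ← Finset.sum_mul, hsum, hc]
    field_simp
    ring
  have hx2 : ∑ j, x j ^ 2 = ∑ u, (G.degree u : ℝ) * (f u - c) ^ 2 := by
    rw [sum_zmod (N := 2 * m) (fun i => (f (p.getVert i) - c) ^ 2), ← hlen,
      hdeg (fun u => (f u - c) ^ 2)]
  have hnext : ∀ j : ZMod (2 * m), p.getVert ((j + 1).val) = p.getVert (j.val + 1) := by
    intro j
    have h1' : (1 : ZMod (2 * m)).val = 1 := by
      rw [ZMod.val_one_eq_one_mod]
      exact Nat.mod_eq_of_lt (by omega)
    rw [ZMod.val_add, h1']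
    have hj := ZMod.val_lt j
    rcases Nat.lt_or_ge (j.val + 1) (2 * m) with h | h
    · rw [Nat.mod_eq_of_lt h]
    · have h' : j.val + 1 = 2 * m := by omega
      rw [h', Nat.mod_self, ← hlen, Walk.getVert_length, Walk.getVert_zero]
  have hxd : ∑ j, (x (j + 1) - x j) ^ 2 =
      ∑ u, ∑ v, (if G.Adj u v then (f u - f v) ^ 2 else 0) := by
    have h3 : ∀ j : ZMod (2 * m), (x (j + 1) - x j) ^ 2 =
        (fun i => (f (p.getVert i) - f (p.getVert (i + 1))) ^ 2) j.val := by
      intro j
      simp only [x]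
      rw [hnext j]
      ring
    rw [Finset.sum_congr rfl (fun j _ => h3 j),
      sum_zmod (N := 2 * m) (fun i => (f (p.getVert i) - f (p.getVert (i + 1))) ^ 2), ← hlen,
      sum_tour p h1 h2 (fun u v => (f u - f v) ^ 2)]
  have hW := Cyc.wirtinger x hx0
  rw [hx2, hxd] at hW
  have hcos : (2 * Real.pi / ((2 * m : ℕ) : ℝ)) = Real.pi / m := by
    push_cast
    field_simp
  rw [hcos] at hW
  linarith

end Pool.Agent.Y419.Relax
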